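import Mathlib

/-!
# A selection lemma of Balog–Szemerédi–Gowers type for graphs with large minimum degree
-/

set_option autoImplicit false

namespace Pool.Agent.BSGLoss

open Finset

variable {V : Type*} [DecidableEq V]

/-- In a symmetric relation of minimal degree `β |M|` there are large sets `Xp`, `Yp` such that
every `x ∈ Xp`, `y ∈ Yp` are joined by many paths of length three. -/
lemma select (M : Finset V) (hM : M.Nonempty) (R : V → V → Prop) [DecidableRel R]
    (hsymm : ∀ x y, R x y → R y x) {β : ℝ} (hβ : 0 < β)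
    (hdeg : ∀ z ∈ M, β * (M.card : ℝ) ≤ ((M.filter (fun x => R x z)).card : ℝ)) :
    ∃ Xp Yp : Finset V, Xp ⊆ M ∧ Yp ⊆ M ∧ 3 / 4 * β * (M.card : ℝ) ≤ Xp.card ∧
      β / 2 * (M.card : ℝ) ≤ Yp.card ∧
      ∀ x ∈ Xp, ∀ y ∈ Yp, ∃ W ⊆ M, β ^ 2 / 4 * (M.card : ℝ) ≤ W.card ∧
        ∀ w ∈ W, R w y ∧ β ^ 3 / 64 * (M.card : ℝ) ≤
          ((M.filter (fun u => R u x ∧ R u w)).card : ℝ) := by
  classical
  obtain ⟨n, hn⟩ : ∃ n : ℝ, n = (M.card : ℝ) := ⟨_, rfl⟩
  have hn0 : 0 < n := by rw [hn]; exact_mod_cast hM.card_pos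
  rw [← hn] at hdeg ⊢
  obtain ⟨Γ, hΓ⟩ : ∃ Γ : V → Finset V, Γ = fun z => M.filter (fun x => R x z) := ⟨_, rfl⟩
  have hΓM : ∀ z, Γ z ⊆ M := fun z => by rw [hΓ]; exact Finset.filter_subset _ _
  have hmem : ∀ z x, x ∈ Γ z ↔ x ∈ M ∧ R x z := fun z x => by rw [hΓ]; simp
  have hdeg' : ∀ z ∈ M, β * n ≤ ((Γ z).card : ℝ) := fun z hz => by rw [hΓ]; exact hdeg z hz
  obtain ⟨cd, hcd⟩ : ∃ cd : V → V → Finset V, cd = fun x w => M.filter (fun u => R u x ∧ R u w) :=
    ⟨_, rfl⟩
  obtain ⟨η, hη⟩ : ∃ η : ℝ, η = β ^ 3 / 64 := ⟨_, rfl⟩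
  have hη0 : 0 < η := by rw [hη]; positivity
  -- bad pairs
  obtain ⟨P, hP⟩ : ∃ P : Finset (V × V), P = (M ×ˢ M).filter (fun p => ((cd p.1 p.2).card : ℝ) < η * n) :=
    ⟨_, rfl⟩
  have hcount : ∑ z ∈ M, ((P.filter (fun p => p.1 ∈ Γ z ∧ p.2 ∈ Γ z)).card : ℝ) ≤ n * (η * n ^ 2) := by
    have h1 : ∑ z ∈ M, ((P.filter (fun p => p.1 ∈ Γ z ∧ p.2 ∈ Γ z)).card : ℝ) =
        ∑ p ∈ P, ((M.filter (fun z => p.1 ∈ Γ z ∧ p.2 ∈ Γ z)).card : ℝ) := by
      simp_rw [Finset.card_filter]
      push_cast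
      exact Finset.sum_comm
    rw [h1]
    have h2 : ∀ p ∈ P, ((M.filter (fun z => p.1 ∈ Γ z ∧ p.2 ∈ Γ z)).card : ℝ) ≤ η * n := by
      intro p hp
      rw [hP, Finset.mem_filter] at hp
      refine le_trans ?_ hp.2.le
      have : M.filter (fun z => p.1 ∈ Γ z ∧ p.2 ∈ Γ z) ⊆ cd p.1 p.2 := by
        intro z hz
        rw [Finset.mem_filter, hmem, hmem] at hz
        rw [hcd, Finset.mem_filter]
        exact ⟨hz.1, hsymm _ _ hz.2.1.2, hsymm _ _ hz.2.2.2⟩
      exact_mod_cast Finset.card_le_card this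
    calc _ ≤ ∑ p ∈ P, η * n := Finset.sum_le_sum h2
      _ = P.card * (η * n) := by rw [Finset.sum_const, nsmul_eq_mul]
      _ ≤ (n * n) * (η * n) := by
          apply mul_le_mul_of_nonneg_right _ (by positivity)
          have : P.card ≤ M.card * M.card := by
            rw [← Finset.card_product, hP]; exact Finset.card_filter_le _ _
          rw [hn]; exact_mod_cast this
      _ = _ := by ring
  obtain ⟨z, hz, hzb⟩ : ∃ z ∈ M, ((P.filter (fun p => p.1 ∈ Γ z ∧ p.2 ∈ Γ z)).card : ℝ) ≤ η * n ^ 2 := by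
    by_contra hcon
    push Not at hcon
    have h1 : ∑ z ∈ M, (η * n ^ 2) < ∑ z ∈ M, ((P.filter (fun p => p.1 ∈ Γ z ∧ p.2 ∈ Γ z)).card : ℝ) :=
      Finset.sum_lt_sum_of_nonempty hM hcon
    rw [Finset.sum_const, nsmul_eq_mul, ← hn] at h1
    linarith
  obtain ⟨X, hX⟩ : ∃ X, X = Γ z := ⟨_, rfl⟩
  have hXM : X ⊆ M := hX ▸ hΓM z
  have hXc : β * n ≤ (X.card : ℝ) := hX ▸ hdeg' z hz
  have hX0 : 0 < (X.card : ℝ) := lt_of_lt_of_le (by positivity) hXc
  -- number of bad partners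
  obtain ⟨bd, hbd⟩ : ∃ bd : V → Finset V, bd = fun x => X.filter (fun w => ((cd x w).card : ℝ) < η * n) :=
    ⟨_, rfl⟩
  have hsum : ∑ x ∈ X, ((bd x).card : ℝ) ≤ β / 64 * (X.card : ℝ) ^ 2 := by
    have h1 : ∑ x ∈ X, ((bd x).card : ℝ) = ((P.filter (fun p => p.1 ∈ Γ z ∧ p.2 ∈ Γ z)).card : ℝ) := by
      have e : P.filter (fun p => p.1 ∈ Γ z ∧ p.2 ∈ Γ z) =
          (X ×ˢ X).filter (fun p => ((cd p.1 p.2).card : ℝ) < η * n) := by
        ext p
        rw [hP, Finset.mem_filter, Finset.mem_filter, Finset.mem_filter, Finset.mem_product,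
          Finset.mem_product, ← hX]
        constructor
        · rintro ⟨⟨_, h2⟩, h3⟩; exact ⟨h3, h2⟩
        · rintro ⟨h3, h2⟩; exact ⟨⟨⟨hXM h3.1, hXM h3.2⟩, h2⟩, h3⟩
      rw [e, hbd, Finset.card_filter, Finset.sum_product]
      push_cast
      apply Finset.sum_congr rfl
      intro x _
      rw [Finset.card_filter]
      push_cast
      rfl
    rw [h1]
    refine hzb.trans ?_
    have h2 : (β * n) ^ 2 ≤ (X.card : ℝ) ^ 2 := pow_le_pow_left₀ (by positivity) hXc 2
    rw [hη]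
    nlinarith
  obtain ⟨Xp, hXp⟩ : ∃ Xp, Xp = X.filter (fun x => ((bd x).card : ℝ) ≤ β / 4 * X.card) := ⟨_, rfl⟩
  have hXpc : 15 / 16 * (X.card : ℝ) ≤ Xp.card := by
    have h1 : ∑ x ∈ X, ((bd x).card : ℝ) = ∑ x ∈ Xp, ((bd x).card : ℝ) +
        ∑ x ∈ X.filter (fun x => ¬ ((bd x).card : ℝ) ≤ β / 4 * X.card), ((bd x).card : ℝ) := by
      rw [hXp, Finset.sum_filter_add_sum_filter_not]
    have h2 : ((X.filter (fun x => ¬ ((bd x).card : ℝ) ≤ β / 4 * X.card)).card : ℝ) * (β / 4 * X.card) ≤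
        ∑ x ∈ X.filter (fun x => ¬ ((bd x).card : ℝ) ≤ β / 4 * X.card), ((bd x).card : ℝ) := by
      rw [← nsmul_eq_mul, ← Finset.sum_const]
      apply Finset.sum_le_sum
      intro x hx
      have := (Finset.mem_filter.mp hx).2
      push Not at this
      exact this.le
    have h3 : (0:ℝ) ≤ ∑ x ∈ Xp, ((bd x).card : ℝ) := Finset.sum_nonneg fun _ _ => Nat.cast_nonneg _
    have h4 : (Xp.card : ℝ) + ((X.filter (fun x => ¬ ((bd x).card : ℝ) ≤ β / 4 * X.card)).card : ℝ) = X.card := by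
      rw [hXp]
      exact_mod_cast Finset.card_filter_add_card_filter_not (s := X) (fun x => ((bd x).card : ℝ) ≤ β / 4 * X.card)
    have h5 : ((X.filter (fun x => ¬ ((bd x).card : ℝ) ≤ β / 4 * X.card)).card : ℝ) ≤ 1 / 16 * X.card := by
      have hp : 0 < β / 4 * (X.card : ℝ) := by positivity
      apply le_of_mul_le_mul_right _ hp
      calc _ ≤ ∑ x ∈ X, ((bd x).card : ℝ) := by linarith
        _ ≤ β / 64 * (X.card : ℝ) ^ 2 := hsum
        _ = _ := by ring
    linarith
  obtain ⟨Yp, hYp⟩ : ∃ Yp, Yp = M.filter (fun y => β / 2 * (X.card : ℝ) ≤ ((X.filter (fun w => R w y)).card : ℝ)) :=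
    ⟨_, rfl⟩
  have hYpc : β / 2 * n ≤ (Yp.card : ℝ) := by
    have h1 : β * n * X.card ≤ ∑ y ∈ M, ((X.filter (fun w => R w y)).card : ℝ) := by
      have e : ∑ y ∈ M, ((X.filter (fun w => R w y)).card : ℝ) = ∑ w ∈ X, ((M.filter (fun y => R w y)).card : ℝ) := by
        simp_rw [Finset.card_filter]
        push_cast
        exact Finset.sum_comm
      rw [e]
      calc β * n * X.card = ∑ w ∈ X, β * n := by rw [Finset.sum_const, nsmul_eq_mul]; ring
        _ ≤ _ := by
          apply Finset.sum_le_sum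
          intro w hw
          refine (hdeg w (hXM hw)).trans ?_
          have : M.filter (fun x => R x w) ⊆ M.filter (fun y => R w y) := by
            intro u hu
            rw [Finset.mem_filter] at hu ⊢
            exact ⟨hu.1, hsymm _ _ hu.2⟩
          exact_mod_cast Finset.card_le_card this
    have h2 : ∑ y ∈ M, ((X.filter (fun w => R w y)).card : ℝ) = ∑ y ∈ Yp, ((X.filter (fun w => R w y)).card : ℝ) +
        ∑ y ∈ M.filter (fun y => ¬ β / 2 * (X.card : ℝ) ≤ ((X.filter (fun w => R w y)).card : ℝ)),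
          ((X.filter (fun w => R w y)).card : ℝ) := by
      rw [hYp, Finset.sum_filter_add_sum_filter_not]
    have h3 : ∑ y ∈ Yp, ((X.filter (fun w => R w y)).card : ℝ) ≤ Yp.card * X.card := by
      rw [← nsmul_eq_mul, ← Finset.sum_const]
      apply Finset.sum_le_sum
      intro y _
      exact_mod_cast Finset.card_filter_le _ _
    have h4 : ∑ y ∈ M.filter (fun y => ¬ β / 2 * (X.card : ℝ) ≤ ((X.filter (fun w => R w y)).card : ℝ)),
          ((X.filter (fun w => R w y)).card : ℝ) ≤ n * (β / 2 * X.card) := by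
      calc _ ≤ ∑ y ∈ M.filter (fun y => ¬ β / 2 * (X.card : ℝ) ≤ ((X.filter (fun w => R w y)).card : ℝ)),
            (β / 2 * (X.card : ℝ)) := by
            apply Finset.sum_le_sum
            intro y hy
            have := (Finset.mem_filter.mp hy).2
            push Not at this
            exact this.le
        _ = ((M.filter (fun y => ¬ β / 2 * (X.card : ℝ) ≤ ((X.filter (fun w => R w y)).card : ℝ))).card : ℝ) *
            (β / 2 * X.card) := by rw [Finset.sum_const, nsmul_eq_mul]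
        _ ≤ _ := by
            apply mul_le_mul_of_nonneg_right _ (by positivity)
            rw [hn]
            exact_mod_cast Finset.card_filter_le _ _
    apply le_of_mul_le_mul_right _ hX0
    have e : β / 2 * n * (X.card : ℝ) = β * n * X.card - n * (β / 2 * X.card) := by ring
    rw [e]
    linarith
  refine ⟨Xp, Yp, ?_, ?_, ?_, hYpc, ?_⟩
  · rw [hXp]; exact (Finset.filter_subset _ _).trans hXM
  · rw [hYp]; exact Finset.filter_subset _ _
  · nlinarith
  · intro x hx y hy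
    rw [hXp, Finset.mem_filter] at hx
    rw [hYp, Finset.mem_filter] at hy
    refine ⟨(X.filter (fun w => R w y)) \ (bd x), ?_, ?_, ?_⟩
    · exact Finset.sdiff_subset.trans ((Finset.filter_subset _ _).trans hXM)
    · have h1 : ((X.filter (fun w => R w y)).card : ℝ) ≤
          (((X.filter (fun w => R w y)) \ (bd x)).card : ℝ) + (bd x).card := by
        have : (X.filter (fun w => R w y)).card ≤ ((X.filter (fun w => R w y)) \ (bd x)).card + (bd x).card := by
          have := Finset.le_card_sdiff (bd x) (X.filter (fun w => R w y))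
          omega
        exact_mod_cast this
      have h2 := hx.2
      have h3 := hy.2
      have h4 : β ^ 2 / 4 * n ≤ β / 4 * X.card := by
        calc β ^ 2 / 4 * n = β / 4 * (β * n) := by ring
          _ ≤ _ := mul_le_mul_of_nonneg_left hXc (by positivity)
      linarith
    · intro w hw
      rw [Finset.mem_sdiff, Finset.mem_filter, hbd, Finset.mem_filter] at hw
      obtain ⟨⟨hwX, hwy⟩, hw2⟩ := hw
      refine ⟨hwy, ?_⟩
      by_contra hcon
      push Not at hcon
      apply hw2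
      refine ⟨hwX, ?_⟩
      rw [hcd, hη]
      exact hcon

end Pool.Agent.BSGLoss
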