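import Mathlib
import Pool.Agent.BSGEnergy.Regimes
import Pool.Agent.BSGLoss.Select

/-!
# A large subset of small doubling inside a set with dense popular chains
-/

set_option autoImplicit false

namespace Pool.Agent.BSGLoss

open Finset Pool.Agent.BSGEnergy

variable {G : Type*} [AddCommGroup G] [DecidableEq G]

lemma walk_neg (A : Finset G) (j : ℕ) : ∀ d, walk A dl j (-d) = walk A dl j d := by
  induction j with
  | zero => intro d; simp [walk, dl]
  | succ j ih =>
    intro d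
    simp only [walk]
    rw [Finset.sum_product, Finset.sum_product, Finset.sum_comm]
    apply Finset.sum_congr rfl
    intro a _
    apply Finset.sum_congr rfl
    intro b _
    rw [← ih]
    congr 1
    simp only
    abel

lemma walk_symm (A : Finset G) (j : ℕ) (x y : G) : walk A dl j (x - y) = walk A dl j (y - x) := by
  rw [← walk_neg A j (x - y), neg_sub]

lemma walk_comp (A : Finset G) (i j : ℕ) (S : Finset G) (x y : G) :
    ∑ u ∈ S, walk A dl i (x - u) * walk A dl j (u - y) ≤ walk A dl (i + j) (x - y) := by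
  have h := conv_step A dl j i S x (x - y)
  have e : ∀ z, z + (x - y - x) = z - y := by intro z; abel
  simp_rw [e] at h
  exact h

open Pointwise in
/-- Selection of a subset of small doubling. -/
lemma small_doubling {M : Finset G} (hM : M.Nonempty) (s : ℕ) {β τ : ℝ} (hβ : 0 < β)
    (hτ : 0 < τ)
    (hdeg : ∀ z ∈ M, β * (M.card : ℝ) ≤
      ((M.filter (fun x => τ ≤ (walk M dl s (x - z) : ℝ))).card : ℝ)) :
    ∃ X ⊆ M, X.Nonempty ∧ 3 / 4 * β * (M.card : ℝ) ≤ X.card ∧
      ((X + X).card : ℝ) * (β ^ 13 * (M.card : ℝ) ^ 6 * τ ^ 6) ≤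
        350000 * (M.card : ℝ) ^ (12 * s) * X.card := by
  classical
  have hn0 : (0:ℝ) < M.card := by exact_mod_cast hM.card_pos
  obtain ⟨Xp, Yp, hXM, hYM, hXc, hYc, hpath⟩ := select M hM (fun x z => τ ≤ (walk M dl s (x - z) : ℝ))
    (fun x y h => by rw [walk_symm]; exact h) hβ hdeg
  obtain ⟨n, hn⟩ : ∃ n : ℝ, n = (M.card : ℝ) := ⟨_, rfl⟩
  rw [← hn] at hn0 hXc hYc ⊢
  have hX0 : (0:ℝ) < Xp.card := lt_of_lt_of_le (by positivity) hXc
  have hY0 : (0:ℝ) < Yp.card := lt_of_lt_of_le (by positivity) hYc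
  have hXne : Xp.Nonempty := by
    rw [← Finset.card_pos]; exact_mod_cast hX0
  have hYne : Yp.Nonempty := by
    rw [← Finset.card_pos]; exact_mod_cast hY0
  -- every difference has many representations
  have key : ∀ g ∈ Yp - Xp, β ^ 2 / 4 * n * (β ^ 3 / 64 * n * (τ * τ) * τ) ≤ (walk M dl (s + s + s) g : ℝ) := by
    intro g hg
    obtain ⟨y, hy, x, hx, rfl⟩ := Finset.mem_sub.mp hg
    obtain ⟨W, hWM, hWc, hW⟩ := hpath x hx y hy
    rw [← hn] at hWc hW
    have h2 : ∀ w ∈ W, β ^ 3 / 64 * n * (τ * τ) ≤ (walk M dl (s + s) (x - w) : ℝ) := by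
      intro w hw
      obtain ⟨_, hc⟩ := hW w hw
      have h3 := walk_comp M s s (M.filter (fun u => τ ≤ (walk M dl s (u - x) : ℝ) ∧
        τ ≤ (walk M dl s (u - w) : ℝ))) x w
      have h3' : ∑ u ∈ M.filter (fun u => τ ≤ (walk M dl s (u - x) : ℝ) ∧
        τ ≤ (walk M dl s (u - w) : ℝ)), (walk M dl s (x - u) : ℝ) * (walk M dl s (u - w) : ℝ) ≤
          (walk M dl (s + s) (x - w) : ℝ) := by exact_mod_cast h3
      refine le_trans ?_ h3'
      calc β ^ 3 / 64 * n * (τ * τ) ≤ ((M.filter (fun u => τ ≤ (walk M dl s (u - x) : ℝ) ∧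
            τ ≤ (walk M dl s (u - w) : ℝ))).card : ℝ) * (τ * τ) :=
            mul_le_mul_of_nonneg_right hc (by positivity)
        _ = ∑ u ∈ M.filter (fun u => τ ≤ (walk M dl s (u - x) : ℝ) ∧
            τ ≤ (walk M dl s (u - w) : ℝ)), τ * τ := by rw [Finset.sum_const, nsmul_eq_mul]
        _ ≤ _ := by
            apply Finset.sum_le_sum
            intro u hu
            rw [Finset.mem_filter] at hu
            rw [walk_symm M s x u]
            exact mul_le_mul hu.2.1 hu.2.2 hτ.le (hτ.le.trans hu.2.1)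
    have h4 := walk_comp M (s + s) s W x y
    have h4' : ∑ w ∈ W, (walk M dl (s + s) (x - w) : ℝ) * (walk M dl s (w - y) : ℝ) ≤
        (walk M dl (s + s + s) (x - y) : ℝ) := by exact_mod_cast h4
    rw [walk_symm M _ y x]
    refine le_trans ?_ h4'
    calc β ^ 2 / 4 * n * (β ^ 3 / 64 * n * (τ * τ) * τ) ≤ (W.card : ℝ) * (β ^ 3 / 64 * n * (τ * τ) * τ) :=
          mul_le_mul_of_nonneg_right hWc (by positivity)
      _ = ∑ w ∈ W, β ^ 3 / 64 * n * (τ * τ) * τ := by rw [Finset.sum_const, nsmul_eq_mul]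
      _ ≤ _ := by
          apply Finset.sum_le_sum
          intro w hw
          have h5 := h2 w hw
          exact mul_le_mul h5 (hW w hw).1 hτ.le ((by positivity : (0:ℝ) ≤ β ^ 3 / 64 * n * (τ * τ)).trans h5)
  have hmass := walk_mass M dl 1 dl_mass (s + s + s) (Yp - Xp)
  have hmass' : ((Yp - Xp).card : ℝ) * (β ^ 2 / 4 * n * (β ^ 3 / 64 * n * (τ * τ) * τ)) ≤ n ^ (2 * (s + s + s)) := by
    calc _ = ∑ g ∈ Yp - Xp, β ^ 2 / 4 * n * (β ^ 3 / 64 * n * (τ * τ) * τ) := by
          rw [Finset.sum_const, nsmul_eq_mul]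
      _ ≤ ∑ g ∈ Yp - Xp, (walk M dl (s + s + s) g : ℝ) := Finset.sum_le_sum key
      _ ≤ _ := by rw [hn]; exact_mod_cast (by simpa using hmass)
  -- Plünnecke
  obtain ⟨D, hD⟩ : ∃ D : ℝ, D = ((Yp - Xp).card : ℝ) / Yp.card := ⟨_, rfl⟩
  have hpl : ((Xp + Xp).card : ℝ) ≤ D ^ 2 * Yp.card := by
    have h := Finset.pluennecke_ruzsa_inequality_nsmul_sub hYne Xp 2
    rw [two_nsmul] at h
    rw [hD]
    have h' := (NNRat.cast_le (K := ℝ)).mpr h
    push_cast at h'
    exact h'
  have hD0 : 0 ≤ D := by rw [hD]; positivity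
  have hDle : D * (β ^ 6 * n ^ 3 * τ ^ 3) ≤ 512 * n ^ (6 * s) := by
    have h1 : ((Yp - Xp).card : ℝ) = D * Yp.card := by rw [hD]; field_simp
    have h2 : D * (β / 2 * n) * (β ^ 2 / 4 * n * (β ^ 3 / 64 * n * (τ * τ) * τ)) ≤ n ^ (2 * (s + s + s)) := by
      refine le_trans ?_ hmass'
      rw [h1]
      apply mul_le_mul_of_nonneg_right _ (by positivity)
      exact mul_le_mul_of_nonneg_left hYc hD0
    have e : 2 * (s + s + s) = 6 * s := by ring
    rw [e] at h2
    linarith
  refine ⟨Xp, hXM, hXne, hXc, ?_⟩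
  have hYn : (Yp.card : ℝ) ≤ n := by rw [hn]; exact_mod_cast Finset.card_le_card hYM
  have h5 : (D * (β ^ 6 * n ^ 3 * τ ^ 3)) ^ 2 ≤ (512 * n ^ (6 * s)) ^ 2 :=
    pow_le_pow_left₀ (by positivity) hDle 2
  have h6 : (512 * n ^ (6 * s)) ^ 2 = 262144 * n ^ (12 * s) := by
    rw [mul_pow, ← pow_mul]; norm_num
    ring
  rw [h6] at h5
  calc ((Xp + Xp).card : ℝ) * (β ^ 13 * n ^ 6 * τ ^ 6) ≤ (D ^ 2 * n) * (β ^ 13 * n ^ 6 * τ ^ 6) := by
        apply mul_le_mul_of_nonneg_right _ (by positivity)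
        exact hpl.trans (mul_le_mul_of_nonneg_left hYn (by positivity))
    _ = (D * (β ^ 6 * n ^ 3 * τ ^ 3)) ^ 2 * (β * n) := by ring
    _ ≤ (262144 * n ^ (12 * s)) * (β * n) := mul_le_mul_of_nonneg_right h5 (by positivity)
    _ ≤ (262144 * n ^ (12 * s)) * (4 / 3 * Xp.card) := by
        apply mul_le_mul_of_nonneg_left _ (by positivity)
        linarith
    _ ≤ 350000 * n ^ (12 * s) * Xp.card := by
        have : 0 ≤ n ^ (12 * s) * (Xp.card : ℝ) := by positivity
        nlinarith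

/-- energy of a subset in terms of its density, if all degrees are large -/
lemma energy_sub {M X : Finset G} (hM : M.Nonempty) (hX : X ⊆ M) {c : ℝ} (hc : 0 ≤ c)
    (hdeg : ∀ z ∈ M, c * ((energy M : ℝ) / M.card) ≤ deg M z) :
    c ^ 4 * ((X.card : ℝ) / M.card) ^ 4 * energy M ≤ energy X := by
  have hn : (0:ℝ) < M.card := by exact_mod_cast hM.card_pos
  have hE : (0:ℝ) < energy M := by exact_mod_cast energy_pos hM
  have h1 : c * ((X.card : ℝ) / M.card) * energy M ≤ (quad X M M M : ℝ) := by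
    rw [← sum_quad_single]
    push_cast
    calc c * ((X.card : ℝ) / M.card) * energy M = ∑ x ∈ X, c * ((energy M : ℝ) / M.card) := by
          rw [Finset.sum_const, nsmul_eq_mul]; ring
      _ ≤ _ := by
          apply Finset.sum_le_sum
          intro x hx
          have := hdeg x (hX hx)
          rw [deg_eq] at this
          exact this
  have h2 : (quad X M M M : ℝ) ^ 4 ≤ energy X * energy M ^ 3 := by
    have h3 := quad_pow_le X M M M
    have h4 : energy X * energy M * (energy M * energy M) = energy X * energy M ^ 3 := by ring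
    rw [h4] at h3
    exact_mod_cast h3
  have h3 : (c * ((X.card : ℝ) / M.card) * energy M) ^ 4 ≤ energy X * energy M ^ 3 :=
    (pow_le_pow_left₀ (by positivity) h1 4).trans h2
  have h4 : (c ^ 4 * ((X.card : ℝ) / M.card) ^ 4 * energy M) * (energy M : ℝ) ^ 3 ≤
      energy X * (energy M : ℝ) ^ 3 := by
    calc _ = (c * ((X.card : ℝ) / M.card) * energy M) ^ 4 := by ring
      _ ≤ _ := h3
  exact le_of_mul_le_mul_right h4 (by positivity)

end Pool.Agent.BSGLoss
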