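import Mathlib
import Pool.Agent.BSGLoss.Sumset

/-!
# Densities of the popular chains in an extremal set and the resulting subset
-/

set_option autoImplicit false

namespace Pool.Agent.BSGLoss

open Finset Pool.Agent.BSGEnergy

variable {G : Type*} [AddCommGroup G] [DecidableEq G]

/-- lower bounds for the densities of the chains -/
noncomputable def dn (n l : ℝ) : ℕ → ℝ
  | 0 => 1 / n
  | j + 1 => Real.exp (-(2 + (101 / 299 : ℝ) ^ j * l))

lemma exp_099 : Real.exp (-(99 / 100)) ≤ 3735 / 10000 := by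
  have h1 : Real.exp (1 / 100) ≤ 100 / 99 := by
    have h := Real.add_one_le_exp (-(1 / 100) : ℝ)
    rw [Real.exp_neg] at h
    rw [← inv_inv (Real.exp (1 / 100))]
    rw [inv_le_comm₀ (by positivity) (by norm_num)]
    norm_num at h ⊢
    exact h
  have h2 := Real.exp_one_gt_d9
  have h3 : Real.exp (-(99 / 100)) = Real.exp (1 / 100) / Real.exp 1 := by
    rw [← Real.exp_sub]; norm_num
  rw [h3, div_le_iff₀ (Real.exp_pos 1)]
  linarith

lemma exp_two : Real.exp (-2) ≤ 3735 / 10000 := by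
  refine le_trans (Real.exp_le_exp.2 (by norm_num)) exp_099

lemma chain_dens {M : Finset G} (hM : M.Nonempty) (hext : Extremal M) {l : ℝ}
    (hE : (energy M : ℝ) = Real.exp (-l) * (M.card : ℝ) ^ 3)
    (hdeg : ∀ z ∈ M, 747 / 1000 * ((energy M : ℝ) / M.card) ≤ deg M z) {x : G} (hx : x ∈ M) (j : ℕ) :
    dn (M.card : ℝ) l j ≤ ((chain M (1 / 2 * (747 / 1000)) x j).card : ℝ) / M.card := by
  have hn : (0:ℝ) < M.card := by exact_mod_cast hM.card_pos
  induction j with
  | zero => simp [dn, chain]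
  | succ j ih =>
    rcases Nat.eq_zero_or_pos j with rfl | hj
    · have h := chain_first hM (c := 747 / 1000) (ε := 1 / 2) (by norm_num) (by norm_num) (by norm_num)
        hdeg hx
      refine le_trans ?_ h
      rw [hE]
      simp only [dn, pow_zero, one_mul]
      rw [neg_add, Real.exp_add, mul_div_assoc, div_self (by positivity), mul_one]
      have h2 := exp_two
      have h3 := Real.exp_pos (-l)
      nlinarith
    · obtain ⟨i, rfl⟩ : ∃ i, j = i + 1 := ⟨j - 1, by omega⟩
      obtain ⟨D, hD⟩ : ∃ D : ℝ, D = ((chain M (1 / 2 * (747 / 1000)) x (i + 1)).card : ℝ) / M.card :=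
        ⟨_, rfl⟩
      obtain ⟨D', hD'⟩ : ∃ D' : ℝ, D' = ((chain M (1 / 2 * (747 / 1000)) x (i + 1 + 1)).card : ℝ) / M.card :=
        ⟨_, rfl⟩
      rw [← hD] at ih
      rw [← hD']
      have hD'0 : 0 ≤ D' := by rw [hD']; positivity
      have hDpos : 0 < D := lt_of_lt_of_le (by simp only [dn]; exact Real.exp_pos _) ih
      have hne : (chain M (1 / 2 * (747 / 1000)) x (i + 1)).Nonempty := by
        rw [← Finset.card_pos]
        rw [hD] at hDpos
        have := (div_pos_iff_of_pos_right hn).mp hDpos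
        exact_mod_cast this
      have h := chain_growth hext (c := 747 / 1000) (ε := 1 / 2) (by norm_num) (by norm_num)
        (by norm_num) hdeg hx (i + 1) hne
      rw [← hD, ← hD'] at h
      have h1 : (Real.exp (-(2 + (101 / 299 : ℝ) ^ i * l))) ^ 101 ≤ D ^ 101 := by
        apply pow_le_pow_left₀ (Real.exp_pos _).le
        simpa only [dn] using ih
      have h2 : (Real.exp (-(99 / 100))) ^ 400 ≤ ((1 - 1 / 2 : ℝ) * (747 / 1000)) ^ 400 := by
        apply pow_le_pow_left₀ (Real.exp_pos _).le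
        refine exp_099.trans (by norm_num)
      have h3 : (Real.exp (-(99 / 100))) ^ 400 * (Real.exp (-(2 + (101 / 299 : ℝ) ^ i * l))) ^ 101 ≤
          D' ^ 299 :=
        (mul_le_mul h2 h1 (by positivity) (by positivity)).trans h
      have h4 : (dn (M.card : ℝ) l (i + 1 + 1)) ^ 299 ≤ D' ^ 299 := by
        refine le_trans (le_of_eq ?_) h3
        simp only [dn]
        rw [← Real.exp_nat_mul, ← Real.exp_nat_mul, ← Real.exp_nat_mul, ← Real.exp_add]
        congr 1
        push_cast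
        rw [pow_succ]
        ring
      exact (pow_le_pow_iff_left₀ (by simp only [dn]; exact (Real.exp_pos _).le) hD'0 (by norm_num)).mp h4

lemma geom_th (m : ℕ) : ∑ j ∈ range m, (101 / 299 : ℝ) ^ j ≤ 15102 / 10000 := by
  have h : ∑ j ∈ range m, (101 / 299 : ℝ) ^ j = (1 - (101 / 299) ^ m) / (1 - 101 / 299) := by
    rw [geom_sum_eq (by norm_num)]
    rw [← neg_div_neg_eq]
    congr 1 <;> ring
  rw [h, div_le_iff₀ (by norm_num)]
  have : (0:ℝ) ≤ (101 / 299) ^ m := by positivity
  linarith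

/-- lower bound for the number of representations along the chain -/
lemma prod_lower {n l E : ℝ} (hn : 0 < n) (hE : E = Real.exp (-l) * n ^ 3) (s : ℕ) :
    n ^ (2 * s + 1) * Real.exp (-((s + 1) * l + 3 * (s + 1) + (∑ j ∈ range s, (101 / 299 : ℝ) ^ j) * l)) ≤
      ∏ i ∈ range (s + 1), (1 / 2 * (747 / 1000) * (E / n) * dn n l i) := by
  have hEn : E / n = Real.exp (-l) * n ^ 2 := by rw [hE]; field_simp
  induction s with
  | zero =>
    simp only [range_zero, sum_empty, zero_mul, add_zero, mul_zero, zero_add, pow_one, one_mul,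
      Finset.prod_range_one, dn, Nat.cast_zero, mul_one]
    rw [hEn]
    have h1 : Real.exp (-(l + 3)) ≤ 3735 / 10000 * Real.exp (-l) := by
      rw [neg_add, Real.exp_add, mul_comm]
      apply mul_le_mul_of_nonneg_right _ (Real.exp_pos _).le
      exact le_trans (Real.exp_le_exp.2 (by norm_num)) exp_two
    calc n * Real.exp (-(l + 3)) ≤ n * (3735 / 10000 * Real.exp (-l)) :=
          mul_le_mul_of_nonneg_left h1 hn.le
      _ = _ := by field_simp; norm_num
  | succ s ih =>
    rw [Finset.prod_range_succ, Finset.sum_range_succ]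
    have h1 : n ^ 2 * Real.exp (-(l + 3 + (101 / 299 : ℝ) ^ s * l)) ≤
        1 / 2 * (747 / 1000) * (E / n) * dn n l (s + 1) := by
      rw [hEn]
      simp only [dn]
      have e1 : Real.exp (-(l + 3 + (101 / 299 : ℝ) ^ s * l)) ≤
          3735 / 10000 * Real.exp (-l) * Real.exp (-(2 + (101 / 299 : ℝ) ^ s * l)) := by
        have e2 : Real.exp (-(l + 3 + (101 / 299 : ℝ) ^ s * l)) =
            Real.exp (-1) * Real.exp (-l) * Real.exp (-(2 + (101 / 299 : ℝ) ^ s * l)) := by
          rw [← Real.exp_add, ← Real.exp_add]; congr 1; ring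
        rw [e2]
        apply mul_le_mul_of_nonneg_right _ (Real.exp_pos _).le
        apply mul_le_mul_of_nonneg_right _ (Real.exp_pos _).le
        exact le_trans (Real.exp_le_exp.2 (by norm_num)) exp_099
      calc _ ≤ n ^ 2 * (3735 / 10000 * Real.exp (-l) * Real.exp (-(2 + (101 / 299 : ℝ) ^ s * l))) :=
            mul_le_mul_of_nonneg_left e1 (by positivity)
        _ = _ := by ring
    refine le_trans (le_of_eq ?_) (mul_le_mul ih h1 (by positivity)
      (Finset.prod_nonneg fun i _ => ?_))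
    · have e3 : Real.exp (-((((s + 1 : ℕ) : ℝ) + 1) * l + 3 * (((s + 1 : ℕ) : ℝ) + 1) +
          (∑ j ∈ range s, (101 / 299 : ℝ) ^ j + (101 / 299 : ℝ) ^ s) * l)) =
          Real.exp (-(((s:ℝ) + 1) * l + 3 * ((s:ℝ) + 1) + (∑ j ∈ range s, (101 / 299 : ℝ) ^ j) * l)) *
          Real.exp (-(l + 3 + (101 / 299 : ℝ) ^ s * l)) := by
        rw [← Real.exp_add]; congr 1; push_cast; ring
      rw [e3]
      ring
    · have hd : 0 ≤ dn n l i := by
        cases i with
        | zero => simp only [dn]; positivity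
        | succ i => simp only [dn]; exact (Real.exp_pos _).le
      rw [hEn]
      positivity

open Pointwise in
/-- the subset of small doubling and large energy -/
lemma subset_of_extremal {M : Finset G} (hM : M.Nonempty) (hext : Extremal M) {l : ℝ} (hl : 0 ≤ l)
    (hE : (energy M : ℝ) = Real.exp (-l) * (M.card : ℝ) ^ 3)
    (hdeg : ∀ z ∈ M, 747 / 1000 * ((energy M : ℝ) / M.card) ≤ deg M z) (s : ℕ) :
    ∃ X ⊆ M, X.Nonempty ∧ Real.exp (-(3 + (101 / 299 : ℝ) ^ s * l)) * (M.card : ℝ) ≤ X.card ∧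
      ((X + X).card : ℝ) ≤ Real.exp (39 + 18 * (s + 1) +
        (6 * (s + 1) + 90612 / 10000 + 13 * (101 / 299 : ℝ) ^ s) * l) * X.card := by
  classical
  obtain ⟨n, hn⟩ : ∃ n : ℝ, n = (M.card : ℝ) := ⟨_, rfl⟩
  have hn0 : 0 < n := by rw [hn]; exact_mod_cast hM.card_pos
  obtain ⟨β, hβ⟩ : ∃ β : ℝ, β = Real.exp (-(2 + (101 / 299 : ℝ) ^ s * l)) := ⟨_, rfl⟩
  obtain ⟨τ, hτ⟩ : ∃ τ : ℝ, τ = n ^ (2 * s + 1) *
      Real.exp (-((s + 1) * l + 3 * (s + 1) + 15102 / 10000 * l)) := ⟨_, rfl⟩
  have hβ0 : 0 < β := by rw [hβ]; exact Real.exp_pos _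
  have hτ0 : 0 < τ := by rw [hτ]; positivity
  have hτle : τ ≤ ∏ i ∈ range (s + 1), (1 / 2 * (747 / 1000) * ((energy M : ℝ) / n) * dn n l i) := by
    refine le_trans ?_ (prod_lower hn0 (by rw [hn]; exact hE) s)
    rw [hτ]
    apply mul_le_mul_of_nonneg_left _ (by positivity)
    apply Real.exp_le_exp.2
    have := mul_le_mul_of_nonneg_right (geom_th s) hl
    linarith
  have hdn0 : ∀ j, 0 ≤ dn n l j := by
    intro j
    cases j with
    | zero => simp only [dn]; positivity
    | succ j => simp only [dn]; exact (Real.exp_pos _).le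
  have hgam : ∀ z ∈ M, β * (M.card : ℝ) ≤
      ((M.filter (fun x => τ ≤ (walk M dl (s + 1) (x - z) : ℝ))).card : ℝ) := by
    intro z hz
    have h1 := chain_dens hM hext hE hdeg hz (s + 1)
    have hMc : (0:ℝ) < M.card := by rw [← hn]; exact hn0
    rw [le_div_iff₀ hMc] at h1
    have h2 : β * (M.card : ℝ) ≤ ((chain M (1 / 2 * (747 / 1000)) z (s + 1)).card : ℝ) := by
      rw [hβ]; simpa only [dn] using h1
    refine h2.trans ?_
    have h3 : chain M (1 / 2 * (747 / 1000)) z (s + 1) ⊆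
        M.filter (fun x => τ ≤ (walk M dl (s + 1) (x - z) : ℝ)) := by
      intro y hy
      rw [Finset.mem_filter]
      refine ⟨chain_subset hz _ hy, ?_⟩
      have h4 := chain_path (A := M) (θ := 1 / 2 * (747 / 1000)) (by norm_num) (x := z)
        (dn (M.card : ℝ) l) (by rw [← hn]; exact hdn0)
        (fun j => chain_dens hM hext hE hdeg hz j) (s + 1) y hy
      rw [walk_symm M (s + 1) y z]
      rw [← hn] at h4
      exact hτle.trans h4
    exact_mod_cast Finset.card_le_card h3
  obtain ⟨X, hXM, hXne, hXc, hXX⟩ := small_doubling hM (s + 1) hβ0 hτ0 hgam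
  rw [← hn] at hXc hXX ⊢
  refine ⟨X, hXM, hXne, ?_, ?_⟩
  · refine le_trans ?_ hXc
    apply mul_le_mul_of_nonneg_right _ hn0.le
    have e : Real.exp (-(3 + (101 / 299 : ℝ) ^ s * l)) = Real.exp (-1) * β := by
      rw [hβ, ← Real.exp_add]; congr 1; ring
    rw [e]
    apply mul_le_mul_of_nonneg_right _ hβ0.le
    exact (le_trans (Real.exp_le_exp.2 (by norm_num)) exp_099).trans (by norm_num)
  · have hX0 : (0:ℝ) ≤ X.card := Nat.cast_nonneg _
    have e1 : β ^ 13 * n ^ 6 * τ ^ 6 = n ^ (12 * (s + 1)) *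
        Real.exp (-(26 + 18 * (s + 1) + (6 * (s + 1) + 90612 / 10000 + 13 * (101 / 299 : ℝ) ^ s) * l)) := by
      have e2 : Real.exp (-(26 + 18 * ((s:ℝ) + 1) + (6 * ((s:ℝ) + 1) + 90612 / 10000 + 13 * (101 / 299 : ℝ) ^ s) * l)) =
          (Real.exp (-(2 + (101 / 299 : ℝ) ^ s * l))) ^ 13 *
          (Real.exp (-((s + 1) * l + 3 * (s + 1) + 15102 / 10000 * l))) ^ 6 := by
        rw [← Real.exp_nat_mul, ← Real.exp_nat_mul, ← Real.exp_add]; congr 1; push_cast; ring
      rw [e2, hβ, hτ]
      ring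
    rw [e1] at hXX
    have h1 : ((X + X).card : ℝ) *
        Real.exp (-(26 + 18 * (s + 1) + (6 * (s + 1) + 90612 / 10000 + 13 * (101 / 299 : ℝ) ^ s) * l)) ≤
        350000 * X.card := by
      have hp : 0 < n ^ (12 * (s + 1)) := by positivity
      apply le_of_mul_le_mul_right _ hp
      calc _ = ((X + X).card : ℝ) * (n ^ (12 * (s + 1)) *
            Real.exp (-(26 + 18 * (s + 1) + (6 * (s + 1) + 90612 / 10000 + 13 * (101 / 299 : ℝ) ^ s) * l))) := by ring
        _ ≤ _ := hXX
        _ = _ := by ring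
    have h2 : (350000:ℝ) ≤ Real.exp 13 := by
      have h3 := Real.exp_one_gt_d9
      have e : Real.exp 13 = Real.exp 1 ^ 13 := by rw [← Real.exp_nat_mul]; norm_num
      rw [e]
      calc (350000:ℝ) ≤ (2.7182818283:ℝ) ^ 13 := by norm_num
        _ ≤ _ := pow_le_pow_left₀ (by norm_num) h3.le 13
    have h3 : ((X + X).card : ℝ) = ((X + X).card : ℝ) *
        Real.exp (-(26 + 18 * (s + 1) + (6 * (s + 1) + 90612 / 10000 + 13 * (101 / 299 : ℝ) ^ s) * l)) *
        Real.exp (26 + 18 * (s + 1) + (6 * (s + 1) + 90612 / 10000 + 13 * (101 / 299 : ℝ) ^ s) * l) := by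
      rw [mul_assoc, ← Real.exp_add, neg_add_cancel, Real.exp_zero, mul_one]
    rw [h3]
    calc _ ≤ (350000 * X.card) *
        Real.exp (26 + 18 * (s + 1) + (6 * (s + 1) + 90612 / 10000 + 13 * (101 / 299 : ℝ) ^ s) * l) :=
          mul_le_mul_of_nonneg_right h1 (Real.exp_pos _).le
      _ ≤ (Real.exp 13 * X.card) *
        Real.exp (26 + 18 * (s + 1) + (6 * (s + 1) + 90612 / 10000 + 13 * (101 / 299 : ℝ) ^ s) * l) := by
          apply mul_le_mul_of_nonneg_right _ (Real.exp_pos _).le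
          exact mul_le_mul_of_nonneg_right h2 hX0
      _ = (Real.exp 13 *
        Real.exp (26 + 18 * (s + 1) + (6 * (s + 1) + 90612 / 10000 + 13 * (101 / 299 : ℝ) ^ s) * l)) * X.card := by ring
      _ = _ := by
          rw [← Real.exp_add]; congr 2; ring

end Pool.Agent.BSGLoss
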