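import Mathlib
import Pool.Agent.BSGLoss.Dens

/-!
# Numerical lemmas and the maximising subset
-/

set_option autoImplicit false

namespace Pool.Agent.BSGLoss

open Finset Pool.Agent.BSGEnergy

variable {G : Type*} [AddCommGroup G] [DecidableEq G]

/-- the maximiser of `E(X) ^ 100 / |X| ^ 299` among the nonempty subsets of `A` -/
lemma exists_max {A : Finset G} (hA : A.Nonempty) : ∃ B ⊆ A, B.Nonempty ∧
    ∀ X ⊆ A, energy X ^ 100 * B.card ^ 299 ≤ energy B ^ 100 * X.card ^ 299 := by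
  have hne : (A.powerset.filter Finset.Nonempty).Nonempty := ⟨A, by simp [hA]⟩
  obtain ⟨B, hB, hmax⟩ := Finset.exists_max_image (A.powerset.filter Finset.Nonempty)
    (fun X => (energy X : ℚ) ^ 100 / (X.card : ℚ) ^ 299) hne
  rw [Finset.mem_filter, Finset.mem_powerset] at hB
  obtain ⟨hBA, hBne⟩ := hB
  have hBpos : (0:ℚ) < (B.card : ℚ) ^ 299 := by
    have := hBne.card_pos
    positivity
  refine ⟨B, hBA, hBne, ?_⟩
  intro X hX
  rcases X.eq_empty_or_nonempty with rfl | hXne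
  · simp [energy]
  · have hXpos : (0:ℚ) < (X.card : ℚ) ^ 299 := by
      have := hXne.card_pos
      positivity
    have := hmax X (by simp [hX, hXne])
    rw [div_le_div_iff₀ hXpos hBpos] at this
    exact_mod_cast this

/-- normalised energies of subsets against the maximiser -/
lemma third {X B : Finset G} (hX : X.Nonempty) (hB : B.Nonempty)
    (h : energy X ^ 100 * B.card ^ 299 ≤ energy B ^ 100 * X.card ^ 299) :
    (energy X : ℝ) / (X.card : ℝ) ^ 3 * ((X.card : ℝ) / (B.card : ℝ)) ^ (1 / 100 : ℝ) ≤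
      (energy B : ℝ) / (B.card : ℝ) ^ 3 := by
  have hx : (0:ℝ) < X.card := by exact_mod_cast hX.card_pos
  have hb : (0:ℝ) < B.card := by exact_mod_cast hB.card_pos
  have hEX : (0:ℝ) < energy X := by exact_mod_cast energy_pos hX
  have hEB : (0:ℝ) < energy B := by exact_mod_cast energy_pos hB
  have h' : (energy X : ℝ) ^ 100 * (B.card : ℝ) ^ 299 ≤ (energy B : ℝ) ^ 100 * (X.card : ℝ) ^ 299 := by
    exact_mod_cast h
  have hpow : ((energy X : ℝ) / (X.card : ℝ) ^ 3) ^ 100 * ((X.card : ℝ) / B.card) ≤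
      ((energy B : ℝ) / (B.card : ℝ) ^ 3) ^ 100 := by
    rw [div_pow, div_pow, ← pow_mul, ← pow_mul, div_mul_div_comm,
      div_le_div_iff₀ (by positivity) (by positivity)]
    have e1 : (B.card : ℝ) ^ (3 * 100) = (B.card : ℝ) ^ 299 * B.card := by rw [← pow_succ]
    have e2 : (X.card : ℝ) ^ (3 * 100) = (X.card : ℝ) ^ 299 * X.card := by rw [← pow_succ]
    rw [e1, e2]
    calc _ = ((energy X : ℝ) ^ 100 * (B.card : ℝ) ^ 299) * (X.card * B.card) := by ring
      _ ≤ ((energy B : ℝ) ^ 100 * (X.card : ℝ) ^ 299) * (X.card * B.card) :=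
          mul_le_mul_of_nonneg_right h' (by positivity)
      _ = _ := by ring
  have h0 : (0:ℝ) ≤ (X.card : ℝ) / B.card := by positivity
  apply le_of_pow_le_pow_left₀ (show 100 ≠ 0 by norm_num) (by positivity)
  rw [mul_pow, ← Real.rpow_natCast (((X.card : ℝ) / (B.card : ℝ)) ^ (1 / 100 : ℝ)),
    ← Real.rpow_mul h0]
  norm_num
  exact hpow

lemma th_le' : (101 / 299 : ℝ) ≤ Real.exp (-(108 / 100)) := by
  have h1 : (Real.exp 1) ^ 27 ≤ (299 / 101 : ℝ) ^ 25 := by
    calc (Real.exp 1) ^ 27 ≤ (2.7182818286 : ℝ) ^ 27 :=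
          pow_le_pow_left₀ (Real.exp_pos _).le Real.exp_one_lt_d9.le 27
      _ ≤ (299 / 101 : ℝ) ^ 25 := by norm_num
  have h2 : (Real.exp (108 / 100)) ^ 25 ≤ (299 / 101 : ℝ) ^ 25 := by
    have : (Real.exp (108 / 100)) ^ 25 = (Real.exp 1) ^ 27 := by
      rw [← Real.exp_nat_mul, ← Real.exp_nat_mul]; norm_num
    rw [this]; exact h1
  have h3 : Real.exp (108 / 100) ≤ 299 / 101 :=
    le_of_pow_le_pow_left₀ (by norm_num) (by norm_num) h2
  rw [Real.exp_neg, le_inv_comm₀ (by norm_num) (Real.exp_pos _)]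
  refine h3.trans (by norm_num)

lemma th_pow_le (s : ℕ) : (101 / 299 : ℝ) ^ s ≤ Real.exp (-(108 / 100 * s)) := by
  have h := pow_le_pow_left₀ (by norm_num) th_le' s
  rw [← Real.exp_nat_mul] at h
  refine h.trans (le_of_eq ?_)
  congr 1; ring

lemma exp_sq_le {x : ℝ} (hx : 0 ≤ x) : x ^ 2 / 2 ≤ Real.exp x := by
  have := Real.quadratic_le_exp_of_nonneg hx
  linarith

/-- the numerical facts used in the final step -/
lemma numbers {T l : ℝ} (hT : 100 ≤ T) (hl : Real.exp ((T - 16) / 2) < l) :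
    ∃ s : ℕ, 39 + 18 * ((s:ℝ) + 1) + (6 * ((s:ℝ) + 1) + 90612 / 10000 + 13 * (101 / 299 : ℝ) ^ s) * l ≤ T * l ∧
      (101 / 299 : ℝ) ^ s ≤ 1 ∧
      2 + 101 / 100 * (3 + (101 / 299 : ℝ) ^ s * l) ≤ Real.exp (-((T - 22) / 6)) * l := by
  have hm0 : (0:ℝ) ≤ (T - 10) / 6 := by linarith
  obtain ⟨m, hm⟩ : ∃ m : ℕ, m = ⌊(T - 10) / 6⌋₊ := ⟨_, rfl⟩
  have hm1 : (m:ℝ) ≤ (T - 10) / 6 := by rw [hm]; exact Nat.floor_le hm0
  have hm2 : (T - 10) / 6 < m + 1 := by rw [hm]; exact Nat.lt_floor_add_one _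
  have hm15 : 15 ≤ m := by
    rw [hm]
    apply Nat.le_floor
    push_cast
    linarith
  obtain ⟨s, rfl⟩ : ∃ s, m = s + 1 := ⟨m - 1, by omega⟩
  have hs14 : 14 ≤ s := by omega
  have hs14' : (14:ℝ) ≤ s := by exact_mod_cast hs14
  push_cast at hm1 hm2
  have hl0 : 0 < l := lt_trans (Real.exp_pos _) hl
  have hth1 : (101 / 299 : ℝ) ^ s ≤ 1 := pow_le_one₀ (by norm_num) (by norm_num)
  refine ⟨s, ?_, hth1, ?_⟩
  · -- first inequality
    have h1 : (101 / 299 : ℝ) ^ s ≤ 1 / 10000 := by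
      calc (101 / 299 : ℝ) ^ s ≤ (101 / 299 : ℝ) ^ 14 := pow_le_pow_of_le_one (by norm_num) (by norm_num) hs14
        _ ≤ 1 / 10000 := by norm_num
    have h2 : 63 * (s:ℝ) ≤ l := by
      have h3 : Real.exp (3 * s) ≤ l := by
        refine le_trans (Real.exp_le_exp.2 ?_) hl.le
        linarith
      have h4 := exp_sq_le (x := 3 * (s:ℝ)) (by positivity)
      nlinarith
    have h3 : (6 * ((s:ℝ) + 1) + 90612 / 10000 + 13 * (101 / 299 : ℝ) ^ s) ≤ T - 9 / 10 := by
      linarith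
    have h4 := mul_le_mul_of_nonneg_right h3 hl0.le
    linarith
  · -- second inequality
    obtain ⟨v, hv⟩ : ∃ v : ℝ, v = (T - 22) / 6 := ⟨_, rfl⟩
    have hv13 : 13 ≤ v := by rw [hv]; linarith
    have hsv : v ≤ s := by rw [hv]; linarith
    have hlv : Real.exp (3 * v + 3) < l := by
      refine lt_of_le_of_lt (Real.exp_le_exp.2 ?_) hl
      rw [hv]; linarith
    rw [← hv]
    have h1 : (101 / 299 : ℝ) ^ s ≤ 4 / 10 * Real.exp (-v) := by
      refine (th_pow_le s).trans ?_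
      have h2 : Real.exp (-(108 / 100 * (s:ℝ))) ≤ Real.exp (-v) * Real.exp (-1) := by
        rw [← Real.exp_add]
        apply Real.exp_le_exp.2
        linarith
      refine h2.trans ?_
      rw [mul_comm]
      apply mul_le_mul_of_nonneg_right _ (Real.exp_pos _).le
      have h3 := Real.exp_one_gt_d9
      rw [Real.exp_neg, inv_le_comm₀ (Real.exp_pos _) (by norm_num)]
      norm_num
      linarith
    have h2 : 20 ≤ Real.exp (-v) * l := by
      have h3 : Real.exp (-v) * Real.exp (3 * v + 3) ≤ Real.exp (-v) * l :=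
        mul_le_mul_of_nonneg_left hlv.le (Real.exp_pos _).le
      rw [← Real.exp_add] at h3
      have h4 : (20:ℝ) ≤ -v + (3 * v + 3) := by linarith
      have h5 := Real.add_one_le_exp (-v + (3 * v + 3))
      linarith
    have h3 := mul_le_mul_of_nonneg_right h1 hl0.le
    linarith

end Pool.Agent.BSGLoss
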